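import Pool.Agent.Work.MP_da2620_ag.MgC

/-!
# The `p`-rank zero stratum of the moduli space of curves is irreducible
-/

universe u

/-- Let `k` be an algebraically closed field of characteristic `p` and `g ≥ 3`.  The set of isomorphism
classes of smooth proper integral curves of genus `g` and `p`-rank zero over `k` is an irreducible
subset of `M_g(k)` with its Zariski topology. -/
theorem Pool.Agent.Results.MP_da2620_ag.Irreducible.result (k : Type u) [Field k] [IsAlgClosed k]
    (p : ℕ) [Fact p.Prime] [CharP k p] (g : ℕ) (hg : 3 ≤ g) : IsIrreducible (PR0.Mg0 k g p) :=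
  PR0.irreducible_Mg0 k p g hg
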